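import Pool.Agent.H88.BL.Targets

/-!
# Bernoulli convolutions near one, row HF: the high frequencies
-/

set_option autoImplicit false
open MeasureTheory ProbabilityTheory Filter Topology Set
open scoped ENNReal NNReal

namespace Pool.Agent.H12.BL

open Pool.Agent.H88.BL

lemma measurableSet_shell (t : ℝ) (N W : ℕ) : MeasurableSet (shell t N W) := by
  have h1 : IsClosed {y : ℝ | 1 ≤ 6 * |y| * (t ^ N) ^ W} :=
    isClosed_le continuous_const (by fun_prop)
  have h2 : IsClosed {y : ℝ | 6 * |y| * (t ^ N) ^ (W + 1) ≤ 1} :=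
    isClosed_le (by fun_prop) continuous_const
  exact (h1.inter h2).measurableSet

lemma cover {t : ℝ} {N : ℕ} (hP : Par t N) :
    {y : ℝ | 1 / 6 ≤ |y|} ⊆ ⋃ W : ℕ, shell t N W := by
  intro y hy
  rw [mem_ofPred_eq] at hy
  have hq0 : 0 ≤ t ^ N := by linarith [hP.lo]
  have hq1 : t ^ N < 1 := by linarith [hP.hi]
  have hy0 : 0 < 6 * |y| := by linarith
  obtain ⟨n, hn⟩ := exists_pow_lt_of_lt_one (x := 1 / (6 * |y|)) (by positivity) hq1
  have hex : ∃ W : ℕ, 6 * |y| * (t ^ N) ^ (W + 1) ≤ 1 := by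
    refine ⟨n, ?_⟩
    have h1 : (t ^ N) ^ (n + 1) ≤ (t ^ N) ^ n := pow_le_pow_of_le_one hq0 hq1.le (Nat.le_succ n)
    have h2 : (t ^ N) ^ (n + 1) ≤ 1 / (6 * |y|) := h1.trans hn.le
    rw [le_div_iff₀ hy0] at h2
    linarith
  classical
  rw [mem_iUnion]
  refine ⟨Nat.find hex, ?_, Nat.find_spec hex⟩
  rcases Nat.eq_zero_or_pos (Nat.find hex) with h | h
  · rw [h, pow_zero]
    linarith
  · have h1 := Nat.find_min hex (m := Nat.find hex - 1) (by omega)
    push Not at h1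
    rw [Nat.sub_add_cancel h] at h1
    exact h1.le

/-- the weight of the shell `W` -/
noncomputable def mw (R W : ℕ) : ℝ := min 1 (6 * 2 ^ R / 2 ^ W)

lemma mw_nonneg (R W : ℕ) : 0 ≤ mw R W := le_min zero_le_one (by positivity)

lemma shell_term (hISH : T_ISH) (hCF : T_CF) {t : ℝ} {N : ℕ} (hP : Par t N) (R W : ℕ) :
    ∫⁻ y in shell t N W, ENNReal.ofReal (‖cf t y‖ * min 1 (2 ^ R / |y|)) ≤
      ENNReal.ofReal (mw R W * (2 * cost N * (1 + 4 * cost N) ^ W)) := by
  have h1 : ∀ y ∈ shell t N W, ENNReal.ofReal (‖cf t y‖ * min 1 (2 ^ R / |y|)) ≤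
      ENNReal.ofReal (mw R W) * ENNReal.ofReal (gp t (N * (W + 1)) y) := by
    intro y hy
    rw [← ENNReal.ofReal_mul (mw_nonneg R W)]
    refine ENNReal.ofReal_le_ofReal ?_
    have h2 := (hCF t hP.pos hP.lt).2 (N * (W + 1)) y
    have hyl : (2 : ℝ) ^ W ≤ 6 * |y| := by
      have h3 := hy.1
      have h4 : (t ^ N) ^ W ≤ (1 / 2) ^ W :=
        pow_le_pow_left₀ (by linarith [hP.lo]) hP.hi W
      have h5 : 1 ≤ 6 * |y| * (1 / 2) ^ W :=
        h3.trans (mul_le_mul_of_nonneg_left h4 (by positivity))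
      have h6 : (1 / 2 : ℝ) ^ W * 2 ^ W = 1 := by
        rw [← mul_pow]; norm_num
      have h7 : (0 : ℝ) < 2 ^ W := by positivity
      calc (2 : ℝ) ^ W = 1 * 2 ^ W := by ring
        _ ≤ 6 * |y| * (1 / 2) ^ W * 2 ^ W := mul_le_mul_of_nonneg_right h5 h7.le
        _ = 6 * |y| * ((1 / 2) ^ W * 2 ^ W) := by ring
        _ = 6 * |y| := by rw [h6, mul_one]
    have h7 : (0 : ℝ) < 2 ^ W := by positivity
    have hy0 : 0 < |y| := by linarith
    have h8 : min 1 (2 ^ R / |y|) ≤ mw R W := by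
      refine min_le_min le_rfl ?_
      rw [div_le_div_iff₀ hy0 h7]
      have h9 : (0 : ℝ) < 2 ^ R := by positivity
      nlinarith
    have h9 : (0 : ℝ) ≤ min 1 (2 ^ R / |y|) := le_min zero_le_one (by positivity)
    calc ‖cf t y‖ * min 1 (2 ^ R / |y|) ≤ gp t (N * (W + 1)) y * mw R W :=
          mul_le_mul h2 h8 h9 ((norm_nonneg _).trans h2)
      _ = _ := mul_comm _ _
  refine (setLIntegral_mono' (measurableSet_shell t N W) h1).trans ?_
  rw [lintegral_const_mul' _ _ ENNReal.ofReal_ne_top, ENNReal.ofReal_mul (mw_nonneg R W)]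
  exact mul_le_mul_right (hISH t N hP W) _

lemma cost_pos (N : ℕ) : 0 < cost N := Real.exp_pos _

lemma sum_bound {N : ℕ} (hc : cost N ≤ 1 / 16) (R n : ℕ) :
    ∑ W ∈ Finset.range n, mw R W * (2 * cost N * (1 + 4 * cost N) ^ W) ≤
      40 * (R + 1) * cost N * (1 + 4 * cost N) ^ R := by
  have hc0 := cost_pos N
  set x := 1 + 4 * cost N with hx
  have hx1 : 1 ≤ x := by linarith
  have hx2 : x ≤ 5 / 4 := by linarith
  have hx0 : 0 < x := by linarith
  have hxR : 0 < x ^ R := by positivity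
  have hnn : ∀ W, 0 ≤ mw R W * (2 * cost N * x ^ W) := fun W =>
    mul_nonneg (mw_nonneg R W) (by positivity)
  have h1 : ∑ W ∈ Finset.range n, mw R W * (2 * cost N * x ^ W) ≤
      ∑ W ∈ Finset.range (R + 3 + n), mw R W * (2 * cost N * x ^ W) :=
    Finset.sum_le_sum_of_subset_of_nonneg (Finset.range_mono (by omega)) fun W _ _ => hnn W
  rw [Finset.sum_range_add] at h1
  have h2 : ∑ W ∈ Finset.range (R + 3), mw R W * (2 * cost N * x ^ W) ≤
      (R + 3) * (4 * cost N * x ^ R) := by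
    have h3 : ∀ W ∈ Finset.range (R + 3), mw R W * (2 * cost N * x ^ W) ≤
        4 * cost N * x ^ R := by
      intro W hW
      rw [Finset.mem_range] at hW
      have h4 : mw R W ≤ 1 := min_le_left _ _
      have h5 : x ^ W ≤ x ^ (R + 2) := pow_le_pow_right₀ hx1 (by omega)
      have h6 : x ^ (R + 2) ≤ 2 * x ^ R := by
        rw [pow_add]
        have : x ^ 2 ≤ 2 := by nlinarith
        nlinarith
      have h7 : 2 * cost N * x ^ W ≤ 2 * cost N * (2 * x ^ R) :=
        mul_le_mul_of_nonneg_left (h5.trans h6) (by positivity)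
      calc mw R W * (2 * cost N * x ^ W) ≤ 1 * (2 * cost N * x ^ W) :=
            mul_le_mul_of_nonneg_right h4 (by positivity)
        _ ≤ _ := by linarith
    have h8 := Finset.sum_le_card_nsmul _ _ _ h3
    rw [Finset.card_range, nsmul_eq_mul] at h8
    push_cast at h8
    exact h8
  have h3 : ∑ j ∈ Finset.range n, mw R (R + 3 + j) * (2 * cost N * x ^ (R + 3 + j)) ≤
      8 * (cost N * x ^ R) := by
    have h4 : ∀ j ∈ Finset.range n, mw R (R + 3 + j) * (2 * cost N * x ^ (R + 3 + j)) ≤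
        3 * (cost N * x ^ R) * (5 / 8) ^ j := by
      intro j _
      have h5 : mw R (R + 3 + j) ≤ 3 / 4 * (1 / 2) ^ j := by
        refine (min_le_right _ _).trans (le_of_eq ?_)
        rw [pow_add, pow_add, div_pow, one_pow]
        field_simp
        norm_num
      have h6 : x ^ (R + 3 + j) ≤ 2 * x ^ R * (5 / 4) ^ j := by
        rw [pow_add, pow_add]
        have h7 : x ^ 3 ≤ 2 := by
          have : x ^ 3 ≤ (5 / 4) ^ 3 := pow_le_pow_left₀ hx0.le hx2 3
          linarith [show ((5 : ℝ) / 4) ^ 3 ≤ 2 by norm_num]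
        have h8 : x ^ j ≤ (5 / 4) ^ j := pow_le_pow_left₀ hx0.le hx2 j
        have h9 : x ^ R * x ^ 3 ≤ 2 * x ^ R := by nlinarith
        exact mul_le_mul h9 h8 (by positivity) (by positivity)
      have h7 : (1 / 2 : ℝ) ^ j * (5 / 4) ^ j = (5 / 8) ^ j := by
        rw [← mul_pow]; norm_num
      calc mw R (R + 3 + j) * (2 * cost N * x ^ (R + 3 + j))
          ≤ (3 / 4 * (1 / 2) ^ j) * (2 * cost N * (2 * x ^ R * (5 / 4) ^ j)) := by
            refine mul_le_mul h5 (mul_le_mul_of_nonneg_left h6 (by positivity)) (by positivity)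
              (by positivity)
        _ = 3 * (cost N * x ^ R) * ((1 / 2) ^ j * (5 / 4) ^ j) := by ring
        _ = _ := by rw [h7]
    refine (Finset.sum_le_sum h4).trans ?_
    rw [← Finset.mul_sum]
    have h5 : ∑ j ∈ Finset.range n, (5 / 8 : ℝ) ^ j ≤ 8 / 3 := by
      rw [geom_sum_eq (by norm_num)]
      have : (0 : ℝ) ≤ (5 / 8) ^ n := by positivity
      rw [div_le_iff_of_neg (by norm_num)]
      linarith
    have h6 : 0 ≤ 3 * (cost N * x ^ R) := by positivity
    calc 3 * (cost N * x ^ R) * ∑ j ∈ Finset.range n, (5 / 8 : ℝ) ^ j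
        ≤ 3 * (cost N * x ^ R) * (8 / 3) := mul_le_mul_of_nonneg_left h5 h6
      _ = _ := by ring
  have hX : 0 ≤ cost N * x ^ R := by positivity
  have hR : (0 : ℝ) ≤ R := Nat.cast_nonneg R
  nlinarith [mul_nonneg hR hX]

theorem pf_HF (hISH : T_ISH) (hCF : T_CF) : T_HF := by
  intro t N hP hc R
  calc ∫⁻ y in {y : ℝ | 1 / 6 ≤ |y|}, ENNReal.ofReal (‖cf t y‖ * min 1 (2 ^ R / |y|))
      ≤ ∫⁻ y in ⋃ W : ℕ, shell t N W, ENNReal.ofReal (‖cf t y‖ * min 1 (2 ^ R / |y|)) :=
        lintegral_mono_set (cover hP)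
    _ ≤ ∑' W : ℕ, ∫⁻ y in shell t N W, ENNReal.ofReal (‖cf t y‖ * min 1 (2 ^ R / |y|)) :=
        lintegral_iUnion_le _ _
    _ ≤ ∑' W : ℕ, ENNReal.ofReal (mw R W * (2 * cost N * (1 + 4 * cost N) ^ W)) :=
        ENNReal.tsum_le_tsum fun W => shell_term hISH hCF hP R W
    _ ≤ ENNReal.ofReal (40 * (R + 1) * cost N * (1 + 4 * cost N) ^ R) := by
        refine ENNReal.tsum_le_of_sum_range_le fun n => ?_
        rw [← ENNReal.ofReal_sum_of_nonneg]
        · exact ENNReal.ofReal_le_ofReal (sum_bound hc R n)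
        · intro W _
          have := cost_pos N
          exact mul_nonneg (mw_nonneg R W) (by positivity)

end Pool.Agent.H12.BL
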